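import Pool.Agent.Q78.TreeShift.Growth

open Filter Topology

namespace Q78.TreeShift

theorem finite_Delta (d n : ℕ) : Finite (Delta d n) :=
  (List.finite_length_lt (Fin d) n).to_subtype

noncomputable instance (d n : ℕ) : Fintype (Delta d n) :=
  @Fintype.ofFinite _ (finite_Delta d n)

/-- words of length `< n + 1`. -/
def deltaEquiv (d n : ℕ) : Delta d (n + 1) ≃ Option (Fin d × Delta d n) where
  toFun w := match w with
    | ⟨[], _⟩ => none
    | ⟨i :: l, h⟩ => some (i, ⟨l, by
        have : (i :: l).length < n + 1 := h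
        simpa [Delta] using this⟩)
  invFun o := match o with
    | none => ⟨[], by simp [Delta]⟩
    | some (i, l) => ⟨i :: l.1, by
        have : l.1.length < n := l.2
        simpa [Delta] using this⟩
  left_inv w := by
    rcases w with ⟨w, h⟩
    cases w with
    | nil => rfl
    | cons i l => rfl
  right_inv o := by
    cases o with
    | none => rfl
    | some p => rcases p with ⟨i, l⟩; rfl

section general

variable {d : ℕ} {T : Type} (ch : T → Fin d → T) (m : T → ℕ)

/-- the alphabet -/
def Alph {T : Type} (m : T → ℕ) : Type := Σ τ : T, Fin (m τ)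

/-- the type of a letter -/
def ty {T : Type} {m : T → ℕ} (a : Alph m) : T := a.1

theorem nil_mem : ([] : List (Fin d)) ∈ Delta d 2 := by simp [Delta]

theorem single_mem (i : Fin d) : [i] ∈ Delta d 2 := by simp [Delta]

/-- the forbidden `2`-blocks -/
def forb : Set (AnyBlock d (Alph m)) :=
  (fun b : Block d (Alph m) 2 => (⟨⟨2, by norm_num⟩, b⟩ : AnyBlock d (Alph m))) ''
    {b | ∃ i : Fin d, ty (b ⟨[i], single_mem i⟩) ≠ ch (ty (b ⟨[], nil_mem⟩)) i}

theorem finite_Alph [Finite T] : Finite (Alph m) := by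
  unfold Alph
  infer_instance

theorem forb_finite [Finite T] : (forb ch m).Finite := by
  apply Set.Finite.image
  have : Finite (Block d (Alph m) 2) := by
    have := finite_Alph m
    unfold Block
    infer_instance
  exact Set.toFinite _

theorem mem_treeShift_forb (t : LTree d (Alph m)) :
    t ∈ treeShift (forb ch m) ↔
      ∀ (v : List (Fin d)) (i : Fin d), ty (t (v ++ [i])) = ch (ty (t v)) i := by
  constructor
  · intro h v i
    by_contra hcon
    refine h v ⟨⟨2, by norm_num⟩, blockAt t 2 v⟩ ⟨blockAt t 2 v, ⟨i, ?_⟩, rfl⟩ rfl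
    simp only [blockAt, List.append_nil]
    exact hcon
  · rintro h v b ⟨b, ⟨i, hi⟩, rfl⟩ hb
    apply hi
    have hb' : blockAt t 2 v = b := hb
    rw [← hb']
    simp only [blockAt, List.append_nil]
    exact h v i

/-- the block with root type `τ` and given second components. -/
def mkB (n : ℕ) (p : Σ τ : T, ∀ w : Delta d n, Fin (m (List.foldl ch τ w.1))) :
    Block d (Alph m) n :=
  fun w => ⟨List.foldl ch p.1 w.1, p.2 w⟩

theorem type_eq {t : LTree d (Alph m)}
    (h : ∀ (v : List (Fin d)) (i : Fin d), ty (t (v ++ [i])) = ch (ty (t v)) i)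
    (v w : List (Fin d)) : ty (t (v ++ w)) = List.foldl ch (ty (t v)) w := by
  induction w using List.reverseRecOn with
  | nil => simp
  | append_singleton w i ih =>
    rw [← List.append_assoc, h, ih, List.foldl_append]
    rfl

theorem blocks_eq (hm : ∀ τ, 1 ≤ m τ) (n : ℕ) :
    blocks (treeShift (forb ch m)) n = Set.range (mkB ch m n) := by
  ext b
  constructor
  · rintro ⟨t, ht, v, rfl⟩
    rw [mem_treeShift_forb] at ht
    have h1 := type_eq ch m ht v
    have h2 : ∀ w : Delta d n, ∃ f : Fin (m (List.foldl ch (ty (t v)) w.1)),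
        (⟨List.foldl ch (ty (t v)) w.1, f⟩ : Alph m) = t (v ++ w.1) := by
      intro w
      rw [← h1 w.1]
      exact ⟨(t (v ++ w.1)).2, rfl⟩
    choose f hf using h2
    exact ⟨⟨ty (t v), f⟩, funext fun w => hf w⟩
  · rintro ⟨⟨τ, f⟩, rfl⟩
    classical
    let g : ∀ w : List (Fin d), Fin (m (List.foldl ch τ w)) := fun w =>
      if h : w ∈ Delta d n then f ⟨w, h⟩ else ⟨0, hm _⟩
    refine ⟨(fun w => ⟨List.foldl ch τ w, g w⟩ : LTree d (Alph m)), ?_, [], ?_⟩
    · refine (mem_treeShift_forb ch m _).2 ?_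
      intro v i
      show List.foldl ch τ (v ++ [i]) = ch (List.foldl ch τ v) i
      rw [List.foldl_append]
      rfl
    · funext w
      show (⟨List.foldl ch τ ([] ++ w.1), g ([] ++ w.1)⟩ : Alph m) = _
      have : g w.1 = f w := by
        show (if h : w.1 ∈ Delta d n then f ⟨w.1, h⟩ else ⟨0, hm _⟩) = f w
        rw [dif_pos w.2]
      rw [List.nil_append, this]
      rfl

theorem mkB_injective {n : ℕ} (hn : 1 ≤ n) : Function.Injective (mkB ch m n) := by
  rintro ⟨τ, f⟩ ⟨τ', f'⟩ h
  have h0 : τ = τ' := by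
    have := congrArg (fun b : Block d (Alph m) n =>
      ty (b ⟨[], by simp only [Delta, Set.mem_ofPred_eq, List.length_nil]; omega⟩)) h
    exact this
  subst h0
  congr 1
  funext w
  have := congrFun h w
  simp only [mkB] at this
  have h1 : (⟨List.foldl ch τ w.1, f w⟩ : Alph m) = ⟨List.foldl ch τ w.1, f' w⟩ := this
  exact eq_of_heq (Sigma.mk.inj h1).2

theorem ncard_blocks [Fintype T] (hm : ∀ τ, 1 ≤ m τ) {n : ℕ} (hn : 1 ≤ n) :
    (blocks (treeShift (forb ch m)) n).ncard =
      ∑ τ : T, ∏ w : Delta d n, m (List.foldl ch τ w.1) := by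
  rw [blocks_eq ch m hm, ← Nat.card_coe_set_eq,
    Nat.card_range_of_injective (mkB_injective ch m hn)]
  rw [Nat.card_eq_fintype_card, Fintype.card_sigma]
  refine Finset.sum_congr rfl (fun τ _ => ?_)
  rw [Fintype.card_pi]
  simp

theorem prod_succ (n : ℕ) (τ : T) :
    ∏ w : Delta d (n + 1), m (List.foldl ch τ w.1) =
      m τ * ∏ i : Fin d, ∏ w : Delta d n, m (List.foldl ch (ch τ i) w.1) := by
  rw [← (deltaEquiv d n).symm.prod_comp, Fintype.prod_option, Fintype.prod_prod_type]
  rfl

end general

/-- number of live nodes in the subtree of depth `n`. -/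
def live {d : ℕ} {T : Type} (ch : Option T → Fin d → Option T) : ℕ → Option T → ℕ
  | 0, _ => 0
  | n + 1, τ => (if τ = none then 0 else 1) + ∑ i : Fin d, live ch n (ch τ i)

end Q78.TreeShift
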