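import Mathlib

/-!
# Tree-shifts of finite type and their entropy

Words over `{0, …, d-1}` are `List (Fin d)`.
-/

open Filter Topology

namespace Q78.TreeShift

/-- `Delta d n` is the set of words over `{0, …, d-1}` of length at most `n - 1`
(for `n ≥ 1`). -/
def Delta (d n : ℕ) : Set (List (Fin d)) := {w | w.length < n}

/-- A labelled tree: a map from the set of all words to the alphabet. -/
def LTree (d : ℕ) (α : Type) : Type := List (Fin d) → α

/-- An `n`-block: a map from `Delta d n` to the alphabet. -/
def Block (d : ℕ) (α : Type) (n : ℕ) : Type := Delta d n → α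

/-- The `n`-block of `t` at the node `v`. -/
def blockAt {d : ℕ} {α : Type} (t : LTree d α) (n : ℕ) (v : List (Fin d)) : Block d α n :=
  fun w => t (v ++ w.1)

/-- A block of some size `n ≥ 1`. -/
def AnyBlock (d : ℕ) (α : Type) : Type := Σ n : {n : ℕ // 1 ≤ n}, Block d α n.1

/-- The set of labelled trees in which no block of `F` occurs at any node. -/
def treeShift {d : ℕ} {α : Type} (F : Set (AnyBlock d α)) : Set (LTree d α) :=
  {t | ∀ v : List (Fin d), ∀ b ∈ F, blockAt t b.1.1 v ≠ b.2}

/-- The set of `n`-blocks which occur in elements of `X`. -/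
def blocks {d : ℕ} {α : Type} (X : Set (LTree d α)) (n : ℕ) : Set (Block d α n) :=
  {b | ∃ t ∈ X, ∃ v : List (Fin d), blockAt t n v = b}

/-- `h(X)` exists and equals `h`: the numbers `ln (ln |B_n(X)|) / n` (which make sense because
`|B_n(X)| ≥ 2` for all large `n`) converge to `h`. -/
def HasEntropy {d : ℕ} {α : Type} (X : Set (LTree d α)) (h : ℝ) : Prop :=
  (∀ᶠ n : ℕ in atTop, 2 ≤ (blocks X n).ncard) ∧
    Tendsto (fun n : ℕ => Real.log (Real.log ((blocks X n).ncard : ℝ)) / (n : ℝ)) atTop (𝓝 h)

/-- `h` is the entropy of some nonempty tree-shift of finite type on the tree in which every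
node has `d` children: there are a finite alphabet `α` and a finite set `F` of blocks with
`h(X_F) = h`. -/
def IsTSFTEntropy (d : ℕ) (h : ℝ) : Prop :=
  ∃ (α : Type) (_ : Finite α) (F : Set (AnyBlock d α)),
    F.Finite ∧ (treeShift F).Nonempty ∧ HasEntropy (treeShift F) h

/-- The matrix shift `X_A`. -/
def matrixShift {ι : Type} (A : Matrix ι ι ℕ) : Set (ℤ → ι) :=
  {x | ∀ i : ℤ, A (x i) (x (i + 1)) = 1}

/-- The spectral radius of a square matrix with natural number entries (over `ℂ`). -/
noncomputable def rho {ι : Type} [Fintype ι] [DecidableEq ι] (A : Matrix ι ι ℕ) : ℝ :=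
  (spectralRadius ℂ (A.map (Nat.cast : ℕ → ℂ))).toReal

end Q78.TreeShift
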