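import Pool.Agent.Q78.TreeShift.Defs

open Filter Topology
open scoped ENNReal NNReal

namespace Q78.TreeShift

variable {ι : Type} [Fintype ι] [DecidableEq ι]

/-- maximal row sum of `A ^ m`. -/
noncomputable def rowMax (A : Matrix ι ι ℕ) (m : ℕ) : ℕ :=
  Finset.univ.sup (fun i => ∑ j, (A ^ m) i j)

section norm

attribute [local instance] Matrix.linftyOpNormedRing Matrix.linftyOpNormedAlgebra

theorem nnnorm_pow_eq (A : Matrix ι ι ℕ) (m : ℕ) :
    ‖(A.map (Nat.cast : ℕ → ℂ)) ^ m‖₊ = (rowMax A m : ℝ≥0) := by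
  have h1 : (A.map (Nat.cast : ℕ → ℂ)) ^ m = (A ^ m).map (Nat.cast : ℕ → ℂ) := by
    have := (Matrix.map_pow A (Nat.castRingHom ℂ) m)
    simpa using this.symm
  rw [h1]
  have h2 := Matrix.linfty_opNNNorm_def ((A ^ m).map (Nat.cast : ℕ → ℂ))
  rw [h2, rowMax]
  have h3 : ∀ i, ∑ j, ‖((A ^ m).map (Nat.cast : ℕ → ℂ)) i j‖₊ = ((∑ j, (A ^ m) i j : ℕ) : ℝ≥0) := by
    intro i
    push_cast
    refine Finset.sum_congr rfl (fun j _ => ?_)
    simp [Matrix.map_apply]
  simp_rw [h3]
  have : ∀ s : Finset ι, s.sup (fun i => ((∑ j, (A ^ m) i j : ℕ) : ℝ≥0)) =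
      ((s.sup (fun i => ∑ j, (A ^ m) i j) : ℕ) : ℝ≥0) := by
    intro s
    induction s using Finset.induction_on with
    | empty => simp
    | insert a s ha ih => 
      rw [Finset.sup_insert, Finset.sup_insert, ih]
      exact (Nat.cast_max (α := ℝ≥0) _ _).symm
  exact this _

theorem gelfand [Nonempty ι] (A : Matrix ι ι ℕ) :
    Tendsto (fun m : ℕ => ((rowMax A m : ℕ) : ℝ) ^ (1 / (m : ℝ))) atTop (𝓝 (rho A)) := by
  have h := spectrum.pow_nnnorm_pow_one_div_tendsto_nhds_spectralRadius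
    (A.map (Nat.cast : ℕ → ℂ))
  simp_rw [nnnorm_pow_eq] at h
  have hfin : spectralRadius ℂ (A.map (Nat.cast : ℕ → ℂ)) ≠ ∞ := by
    have h1 := spectrum.spectralRadius_le_pow_nnnorm_pow_one_div ℂ (A.map (Nat.cast : ℕ → ℂ)) 0
    refine ne_top_of_le_ne_top ?_ h1
    simp
  have h2 := (ENNReal.tendsto_toReal hfin).comp h
  refine h2.congr (fun m => ?_)
  simp only [Function.comp_apply]
  rw [← ENNReal.toReal_rpow]
  simp

end norm

theorem rowMax_pos {A : Matrix ι ι ℕ} (hA : ∀ m, A ^ m ≠ 0) (m : ℕ) : 1 ≤ rowMax A m := by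
  by_contra hcon
  apply hA m
  have h0 : rowMax A m = 0 := by omega
  ext i j
  have h1 : ∑ j, (A ^ m) i j ≤ rowMax A m :=
    Finset.le_sup (f := fun i => ∑ j, (A ^ m) i j) (Finset.mem_univ i)
  have h2 : (A ^ m) i j ≤ ∑ j, (A ^ m) i j :=
    Finset.single_le_sum (f := fun j => (A ^ m) i j) (fun _ _ => Nat.zero_le _)
      (Finset.mem_univ j)
  simp only [Matrix.zero_apply]
  omega

theorem one_le_rho [Nonempty ι] {A : Matrix ι ι ℕ} (hA : ∀ m, A ^ m ≠ 0) : 1 ≤ rho A := by
  refine ge_of_tendsto (gelfand A) (Eventually.of_forall fun m => ?_)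
  exact Real.one_le_rpow (by exact_mod_cast rowMax_pos hA m) (by positivity)

theorem log_rowMax_limit [Nonempty ι] {A : Matrix ι ι ℕ} (hA : ∀ m, A ^ m ≠ 0) :
    Tendsto (fun m : ℕ => Real.log (rowMax A m : ℝ) / (m : ℝ)) atTop
      (𝓝 (Real.log (rho A))) := by
  have h1 := (gelfand A).log (by linarith [one_le_rho hA])
  refine h1.congr (fun m => ?_)
  have : (0 : ℝ) < (rowMax A m : ℝ) := by
    exact_mod_cast rowMax_pos hA m
  rw [Real.log_rpow this]
  ring

/-- Growth rate of partial sums. -/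
theorem log_sum_limit {a : ℕ → ℝ} (ha : ∀ m, 1 ≤ a m) {L : ℝ}
    (hL : Tendsto (fun m : ℕ => Real.log (a m) / (m : ℝ)) atTop (𝓝 L)) :
    Tendsto (fun n : ℕ => Real.log (∑ m ∈ Finset.range n, a m) / (n : ℝ)) atTop (𝓝 L) := by
  have hL0 : 0 ≤ L := by
    refine ge_of_tendsto hL (Eventually.of_forall fun m => ?_)
    exact div_nonneg (Real.log_nonneg (ha m)) (Nat.cast_nonneg _)
  rw [Metric.tendsto_atTop]
  intro ε hε
  -- upper bound for all `a m`
  obtain ⟨M, hM⟩ := (Metric.tendsto_atTop.1 hL) (ε / 4) (by positivity)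
  have hup : ∃ C : ℝ, 1 ≤ C ∧ ∀ m, a m ≤ C * Real.exp ((L + ε / 4) * m) := by
    refine ⟨1 + ∑ m ∈ Finset.range (M + 1), a m, ?_, ?_⟩
    · have : 0 ≤ ∑ m ∈ Finset.range (M + 1), a m :=
        Finset.sum_nonneg (fun m _ => by linarith [ha m])
      linarith
    · intro m
      have hs : 0 ≤ ∑ m ∈ Finset.range (M + 1), a m :=
        Finset.sum_nonneg (fun m _ => by linarith [ha m])
      have hexp : 1 ≤ Real.exp ((L + ε / 4) * m) := by
        apply Real.one_le_exp
        positivity
      by_cases hm : m < M + 1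
      · have h1 : a m ≤ ∑ m ∈ Finset.range (M + 1), a m :=
          Finset.single_le_sum (f := a) (fun i _ => by linarith [ha i]) (Finset.mem_range.2 hm)
        calc a m ≤ (1 + ∑ m ∈ Finset.range (M + 1), a m) * 1 := by linarith
          _ ≤ _ := by
            apply mul_le_mul_of_nonneg_left hexp
            linarith
      · have hm1 : M ≤ m := by omega
        have hm0 : (0 : ℝ) < m := by
          have : 0 < m := by omega
          exact_mod_cast this
        have h2 := hM m hm1
        rw [Real.dist_eq, abs_lt] at h2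
        have h3 : Real.log (a m) / m < L + ε / 4 := by linarith [h2.2]
        rw [div_lt_iff₀ hm0] at h3
        have h4 : a m < Real.exp ((L + ε / 4) * m) := by
          rw [← Real.log_lt_iff_lt_exp (by linarith [ha m])]
          exact h3
        calc a m ≤ 1 * Real.exp ((L + ε / 4) * m) := by linarith
          _ ≤ _ := by
            apply mul_le_mul_of_nonneg_right _ (by positivity)
            linarith
  obtain ⟨C, hC1, hC⟩ := hup
  -- limits
  have hlogn : Tendsto (fun n : ℕ => Real.log (n : ℝ) / (n : ℝ)) atTop (𝓝 0) := by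
    have := Real.isLittleO_log_id_atTop.tendsto_div_nhds_zero
    exact this.comp tendsto_natCast_atTop_atTop
  have hCn : Tendsto (fun n : ℕ => Real.log C / (n : ℝ)) atTop (𝓝 0) :=
    tendsto_const_div_atTop_nhds_zero_nat _
  obtain ⟨N1, hN1⟩ := (Metric.tendsto_atTop.1 hlogn) (ε / 4) (by positivity)
  obtain ⟨N2, hN2⟩ := (Metric.tendsto_atTop.1 hCn) (ε / 4) (by positivity)
  have hLn : Tendsto (fun n : ℕ => (L + ε) / (n : ℝ)) atTop (𝓝 0) :=
    tendsto_const_div_atTop_nhds_zero_nat _
  obtain ⟨N3, hN3⟩ := (Metric.tendsto_atTop.1 hLn) (ε / 4) (by positivity)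
  refine ⟨max (max N1 N2) (max N3 (M + 2)), fun n hn => ?_⟩
  have hnN1 : N1 ≤ n := le_trans (le_trans (le_max_left _ _) (le_max_left _ _)) hn
  have hnN2 : N2 ≤ n := le_trans (le_trans (le_max_right _ _) (le_max_left _ _)) hn
  have hnN3 : N3 ≤ n := le_trans (le_trans (le_max_left _ _) (le_max_right _ _)) hn
  have hnM : M + 2 ≤ n := le_trans (le_trans (le_max_right _ _) (le_max_right _ _)) hn
  have hn0 : (0 : ℝ) < n := by
    have : 0 < n := by omega
    exact_mod_cast this
  have e1 := hN1 n hnN1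
  have e2 := hN2 n hnN2
  have e3 := hN3 n hnN3
  rw [Real.dist_eq, sub_zero, abs_lt] at e1 e2 e3
  obtain ⟨k, rfl⟩ : ∃ k, n = k + 1 := ⟨n - 1, by omega⟩
  have hS1 : a k ≤ ∑ m ∈ Finset.range (k + 1), a m :=
    Finset.single_le_sum (f := a) (fun i _ => by linarith [ha i])
      (Finset.mem_range.2 (Nat.lt_succ_self k))
  have hSpos : 0 < ∑ m ∈ Finset.range (k + 1), a m := by linarith [ha k]
  rw [Real.dist_eq, abs_lt]
  constructor
  · -- lower bound
    have hk0 : (0 : ℝ) < k := by
      have : 0 < k := by omega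
      exact_mod_cast this
    have h2 := hM k (by omega)
    rw [Real.dist_eq, abs_lt] at h2
    have h3 : L - ε / 4 < Real.log (a k) / k := by linarith [h2.1]
    rw [lt_div_iff₀ hk0] at h3
    have h4 : Real.log (a k) ≤ Real.log (∑ m ∈ Finset.range (k + 1), a m) :=
      Real.log_le_log (by linarith [ha k]) hS1
    have h5 : (L + ε) < ε / 4 * ((k + 1 : ℕ) : ℝ) := by
      have := e3.2
      rwa [div_lt_iff₀ hn0] at this
    have h6 : L - ε < Real.log (∑ m ∈ Finset.range (k + 1), a m) / ((k + 1 : ℕ) : ℝ) := by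
      rw [lt_div_iff₀ hn0]
      push_cast at h5 ⊢
      nlinarith
    linarith
  · have hS2 : ∑ m ∈ Finset.range (k + 1), a m ≤
        ((k + 1 : ℕ) : ℝ) * (C * Real.exp ((L + ε / 4) * ((k + 1 : ℕ) : ℝ))) := by
      calc ∑ m ∈ Finset.range (k + 1), a m
          ≤ ∑ m ∈ Finset.range (k + 1), (C * Real.exp ((L + ε / 4) * ((k + 1 : ℕ) : ℝ))) := by
            refine Finset.sum_le_sum (fun m hm => ?_)
            refine (hC m).trans ?_
            apply mul_le_mul_of_nonneg_left _ (by linarith)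
            apply Real.exp_le_exp.2
            apply mul_le_mul_of_nonneg_left _ (by positivity)
            exact_mod_cast (Finset.mem_range.1 hm).le
        _ = _ := by
            rw [Finset.sum_const, Finset.card_range, nsmul_eq_mul]
    have hlog : Real.log (∑ m ∈ Finset.range (k + 1), a m) ≤
        Real.log ((k + 1 : ℕ) : ℝ) + (Real.log C + (L + ε / 4) * ((k + 1 : ℕ) : ℝ)) := by
      refine (Real.log_le_log hSpos hS2).trans (le_of_eq ?_)
      rw [Real.log_mul (by positivity) (by positivity), Real.log_mul (by positivity)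
        (by positivity), Real.log_exp]
    have h7 : Real.log (∑ m ∈ Finset.range (k + 1), a m) / ((k + 1 : ℕ) : ℝ) ≤
        Real.log ((k + 1 : ℕ) : ℝ) / ((k + 1 : ℕ) : ℝ) + (Real.log C / ((k + 1 : ℕ) : ℝ)
          + (L + ε / 4)) := by
      rw [div_le_iff₀ hn0]
      refine hlog.trans (le_of_eq ?_)
      field_simp
    linarith [e1.2, e2.2]

/-- the total mass `Σ_i (A ^ m v)_i`. -/
noncomputable def mass (A : Matrix ι ι ℕ) (v : ι → ℕ) (m : ℕ) : ℕ := ∑ i, ((A ^ m).mulVec v) i

theorem rowMax_le_mass [Nonempty ι] (A : Matrix ι ι ℕ) {v : ι → ℕ} (hv : ∀ i, 1 ≤ v i) (m : ℕ) :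
    rowMax A m ≤ mass A v m := by
  unfold rowMax
  rw [Finset.sup_le_iff]
  intro i _
  calc ∑ j, (A ^ m) i j ≤ ((A ^ m).mulVec v) i := by
        unfold Matrix.mulVec dotProduct
        refine Finset.sum_le_sum (fun j _ => ?_)
        exact Nat.le_mul_of_pos_right _ (hv j)
    _ ≤ mass A v m :=
        Finset.single_le_sum (f := fun i => ((A ^ m).mulVec v) i) (fun _ _ => Nat.zero_le _)
          (Finset.mem_univ i)

theorem mass_le (A : Matrix ι ι ℕ) (v : ι → ℕ) (m : ℕ) :
    mass A v m ≤ Fintype.card ι * (rowMax A m * ∑ i, v i) := by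
  unfold mass
  calc ∑ i, ((A ^ m).mulVec v) i ≤ ∑ _i : ι, (rowMax A m * ∑ i, v i) := by
        refine Finset.sum_le_sum (fun i _ => ?_)
        calc ((A ^ m).mulVec v) i = ∑ j, (A ^ m) i j * v j := rfl
          _ ≤ ∑ j, (A ^ m) i j * ∑ i, v i := by
              refine Finset.sum_le_sum (fun j _ => ?_)
              exact Nat.mul_le_mul_left _
                (Finset.single_le_sum (f := v) (fun _ _ => Nat.zero_le _) (Finset.mem_univ j))
          _ = (∑ j, (A ^ m) i j) * ∑ i, v i := by rw [Finset.sum_mul]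
          _ ≤ rowMax A m * ∑ i, v i := by
              apply Nat.mul_le_mul_right
              exact Finset.le_sup (f := fun i => ∑ j, (A ^ m) i j) (Finset.mem_univ i)
    _ = _ := by simp

theorem log_mass_limit [Nonempty ι] {A : Matrix ι ι ℕ} (hA : ∀ m, A ^ m ≠ 0) {v : ι → ℕ}
    (hv : ∀ i, 1 ≤ v i) :
    Tendsto (fun n : ℕ => Real.log (∑ m ∈ Finset.range n, (mass A v m : ℝ)) / (n : ℝ)) atTop
      (𝓝 (Real.log (rho A))) := by
  have hpos : ∀ m, 1 ≤ mass A v m := fun m => (rowMax_pos hA m).trans (rowMax_le_mass A hv m)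
  apply log_sum_limit (fun m => by exact_mod_cast hpos m)
  have h1 := log_rowMax_limit hA
  have hV : 1 ≤ ∑ i, v i := by
    obtain ⟨i⟩ := (inferInstance : Nonempty ι)
    exact (hv i).trans (Finset.single_le_sum (f := v) (fun _ _ => Nat.zero_le _)
      (Finset.mem_univ i))
  have hcard : 1 ≤ Fintype.card ι := Fintype.card_pos
  have h2 : Tendsto (fun m : ℕ => Real.log (rowMax A m : ℝ) / (m : ℝ) +
      Real.log ((Fintype.card ι * ∑ i, v i : ℕ) : ℝ) / (m : ℝ)) atTop
      (𝓝 (Real.log (rho A))) := by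
    have := h1.add (tendsto_const_div_atTop_nhds_zero_nat
      (Real.log ((Fintype.card ι * ∑ i, v i : ℕ) : ℝ)))
    simpa using this
  refine tendsto_of_tendsto_of_tendsto_of_le_of_le h1 h2 (fun m => ?_) (fun m => ?_)
  · show Real.log (rowMax A m : ℝ) / (m : ℝ) ≤ Real.log (mass A v m : ℝ) / (m : ℝ)
    apply div_le_div_of_nonneg_right _ (Nat.cast_nonneg _)
    apply Real.log_le_log
    · exact_mod_cast rowMax_pos hA m
    · exact_mod_cast rowMax_le_mass A hv m
  · show Real.log (mass A v m : ℝ) / (m : ℝ) ≤ Real.log (rowMax A m : ℝ) / (m : ℝ) +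
      Real.log ((Fintype.card ι * ∑ i, v i : ℕ) : ℝ) / (m : ℝ)
    rw [← add_div]
    apply div_le_div_of_nonneg_right _ (Nat.cast_nonneg _)
    rw [← Real.log_mul]
    · apply Real.log_le_log
      · exact_mod_cast hpos m
      · have := mass_le A v m
        have h3 : mass A v m ≤ rowMax A m * (Fintype.card ι * ∑ i, v i) := by
          calc mass A v m ≤ _ := this
            _ = _ := by ring
        exact_mod_cast h3
    · have := rowMax_pos hA m
      positivity
    · have : 0 < Fintype.card ι * ∑ i, v i := by positivity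
      positivity

/-- If `rho A < d` there is a positive integer vector with `A v ≤ d v`. -/
theorem exists_vec [Nonempty ι] (A : Matrix ι ι ℕ) {d : ℕ} (hd : 1 ≤ d) (h : rho A < d) :
    ∃ v : ι → ℕ, (∀ i, 1 ≤ v i) ∧ ∀ i, (A.mulVec v) i ≤ d * v i := by
  have h1 := (gelfand A).eventually (gt_mem_nhds h)
  obtain ⟨K, hK1, hK⟩ := ((eventually_ge_atTop 1).and h1).exists
  have hKpos : (0 : ℝ) < K := by exact_mod_cast hK1
  have hle : (rowMax A K) ≤ d ^ K := by
    have h2 : ((rowMax A K : ℕ) : ℝ) = (((rowMax A K : ℕ) : ℝ) ^ (1 / (K : ℝ))) ^ K := by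
      rw [← Real.rpow_natCast, ← Real.rpow_mul (by positivity)]
      field_simp
      simp
    have h3 : ((rowMax A K : ℕ) : ℝ) ≤ (d : ℝ) ^ K := by
      rw [h2]
      exact pow_le_pow_left₀ (by positivity) hK.le K
    exact_mod_cast h3
  have hrow : ∀ i, ((A ^ K).mulVec 1) i ≤ d ^ K := by
    intro i
    refine le_trans ?_ hle
    have : ((A ^ K).mulVec 1) i = ∑ j, (A ^ K) i j := by
      simp [Matrix.mulVec, dotProduct]
    rw [this]
    exact Finset.le_sup (f := fun i => ∑ j, (A ^ K) i j) (Finset.mem_univ i)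
  -- general identity: `A v_K + d ^ K = d v_K + A ^ K 1`
  have key : ∀ K : ℕ, ∃ v : ι → ℕ, (∀ i, 1 ≤ K → 1 ≤ v i) ∧
      ∀ i, (A.mulVec v) i + d ^ K = d * v i + ((A ^ K).mulVec 1) i := by
    intro K
    induction K with
    | zero => exact ⟨0, fun i h => by omega, fun i => by simp⟩
    | succ K ih =>
      obtain ⟨v, hv1, hv2⟩ := ih
      refine ⟨fun i => d * v i + ((A ^ K).mulVec 1) i, ?_, ?_⟩
      · intro i _
        show 1 ≤ d * v i + ((A ^ K).mulVec 1) i
        by_cases hK0 : 1 ≤ K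
        · have := hv1 i hK0
          nlinarith
        · have : K = 0 := by omega
          subst this
          simp
      · intro i
        have e1 : A.mulVec (fun i => d * v i + ((A ^ K).mulVec 1) i) =
            d • (A.mulVec v) + (A ^ (K + 1)).mulVec 1 := by
          have : (fun i => d * v i + ((A ^ K).mulVec 1) i) = d • v + (A ^ K).mulVec 1 := by
            ext i; simp
          rw [this, Matrix.mulVec_add, Matrix.mulVec_smul, Matrix.mulVec_mulVec, pow_succ']
        rw [e1]
        simp only [Pi.add_apply, Pi.smul_apply, smul_eq_mul]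
        have := hv2 i
        rw [pow_succ d K]
        nlinarith [this]
  obtain ⟨v, hv1, hv2⟩ := key K
  refine ⟨v, fun i => hv1 i hK1, fun i => ?_⟩
  have := hv2 i
  have := hrow i
  omega

end Q78.TreeShift
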