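import Pool.Agent.Q78.TreeShift.Count

open Filter Topology

namespace Q78.TreeShift

/-- multiplicity: live types have two letters, the dead type one. -/
def mult {T : Type} : Option T → ℕ
  | none => 1
  | some _ => 2

theorem one_le_mult {T : Type} (τ : Option T) : 1 ≤ mult τ := by
  cases τ <;> simp [mult]

theorem prod_mult {d : ℕ} {T : Type} (ch : Option T → Fin d → Option T) (n : ℕ) :
    ∀ τ : Option T, ∏ w : Delta d n, mult (List.foldl ch τ w.1) = 2 ^ live ch n τ := by
  induction n with
  | zero =>
    intro τ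
    have : IsEmpty (Delta d 0) := ⟨fun w => absurd w.2 (by simp [Delta])⟩
    simp [live]
  | succ n ih =>
    intro τ
    rw [prod_succ, live, pow_add]
    congr 1
    · cases τ <;> simp [mult]
    · rw [← Finset.prod_pow_eq_pow_sum]
      exact Finset.prod_congr rfl (fun i _ => ih _)

variable {ι : Type} [Fintype ι] [DecidableEq ι]

/-- live types -/
def LT (v : ι → ℕ) : Type := Σ i : ι, Fin (v i)

instance (v : ι → ℕ) : Fintype (LT v) := inferInstanceAs (Fintype (Σ i : ι, Fin (v i)))

/-- the items to be distributed among the children of the types over `i`. -/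
def Items (A : Matrix ι ι ℕ) (v : ι → ℕ) (i : ι) : Type := Σ j : ι, Fin (v j) × Fin (A i j)

instance (A : Matrix ι ι ℕ) (v : ι → ℕ) (i : ι) : Fintype (Items A v i) :=
  inferInstanceAs (Fintype (Σ j : ι, Fin (v j) × Fin (A i j)))

omit [DecidableEq ι] in
theorem card_Items (A : Matrix ι ι ℕ) (v : ι → ℕ) (i : ι) :
    Fintype.card (Items A v i) = (A.mulVec v) i := by
  have : Fintype.card (Items A v i) = Fintype.card (Σ j : ι, Fin (v j) × Fin (A i j)) := rfl
  rw [this, Fintype.card_sigma]
  simp only [Fintype.card_prod, Fintype.card_fin, Matrix.mulVec, dotProduct]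
  exact Finset.sum_congr rfl (fun j _ => mul_comm _ _)

/-- child type attached to an item -/
def itemTy {A : Matrix ι ι ℕ} {v : ι → ℕ} {i : ι} (x : Items A v i) : Option (LT v) :=
  some ⟨x.1, x.2.1⟩

/-- the child map -/
noncomputable def chMap {d : ℕ} {A : Matrix ι ι ℕ} {v : ι → ℕ}
    (e : ∀ i, Items A v i ↪ Fin (v i) × Fin d) : Option (LT v) → Fin d → Option (LT v)
  | none, _ => none
  | some p, c => Function.extend (e p.1) itemTy (fun _ => none) (p.2, c)

omit [Fintype ι] [DecidableEq ι] in
theorem live_none {d : ℕ} {A : Matrix ι ι ℕ} {v : ι → ℕ}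
    (e : ∀ i, Items A v i ↪ Fin (v i) × Fin d) (n : ℕ) : live (chMap e) n none = 0 := by
  induction n with
  | zero => rfl
  | succ n ih => simp [live, chMap, ih]

/-- mass over `i`. -/
noncomputable def zz {d : ℕ} {A : Matrix ι ι ℕ} {v : ι → ℕ}
    (e : ∀ i, Items A v i ↪ Fin (v i) × Fin d) (n : ℕ) (i : ι) : ℕ :=
  ∑ k : Fin (v i), live (chMap e) n (some ⟨i, k⟩)

theorem zz_succ {d : ℕ} {A : Matrix ι ι ℕ} {v : ι → ℕ}
    (e : ∀ i, Items A v i ↪ Fin (v i) × Fin d) (n : ℕ) (i : ι) :
    zz e (n + 1) i = v i + (A.mulVec (zz e n)) i := by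
  have h1 : zz e (n + 1) i = v i + ∑ k : Fin (v i), ∑ c : Fin d,
      live (chMap e) n (chMap e (some ⟨i, k⟩) c) := by
    unfold zz
    simp only [live]
    rw [Finset.sum_add_distrib]
    simp
  rw [h1]
  congr 1
  have h2 : ∑ k : Fin (v i), ∑ c : Fin d, live (chMap e) n (chMap e (some ⟨i, k⟩) c) =
      ∑ p : Fin (v i) × Fin d,
        live (chMap e) n (Function.extend (e i) itemTy (fun _ => none) p) := by
    rw [Fintype.sum_prod_type]
    rfl
  rw [h2, ← Fintype.sum_of_injective (e i) (e i).injective
    (fun x => live (chMap e) n (itemTy x))]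
  · have h3 : ∑ x : Items A v i, live (chMap e) n (itemTy x) =
        ∑ x : (Σ j : ι, Fin (v j) × Fin (A i j)),
          live (chMap e) n (some ⟨x.1, x.2.1⟩) := rfl
    rw [h3, Fintype.sum_sigma]
    simp only [Matrix.mulVec, dotProduct]
    refine Finset.sum_congr rfl (fun j _ => ?_)
    rw [Fintype.sum_prod_type]
    simp only [Finset.sum_const, Finset.card_univ, Fintype.card_fin, smul_eq_mul]
    rw [← Finset.mul_sum]
    rfl
  · intro p hp
    rw [Function.extend_apply' _ _ _ (by simpa using hp), live_none]
  · intro x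
    rw [(e i).injective.extend_apply]

theorem zz_eq {d : ℕ} {A : Matrix ι ι ℕ} {v : ι → ℕ}
    (e : ∀ i, Items A v i ↪ Fin (v i) × Fin d) (n : ℕ) :
    zz e n = ∑ m ∈ Finset.range n, (A ^ m).mulVec v := by
  induction n with
  | zero =>
    ext i
    simp [zz, live]
  | succ n ih =>
    have : zz e (n + 1) = v + A.mulVec (zz e n) := funext (zz_succ e n)
    rw [this, ih, Finset.sum_range_succ', Matrix.mulVec_sum, add_comm]
    congr 1
    · refine Finset.sum_congr rfl (fun m _ => ?_)
      rw [Matrix.mulVec_mulVec, pow_succ']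
    · simp

theorem sum_live {d : ℕ} {A : Matrix ι ι ℕ} {v : ι → ℕ}
    (e : ∀ i, Items A v i ↪ Fin (v i) × Fin d) (n : ℕ) :
    ∑ τ : Option (LT v), live (chMap e) n τ = ∑ m ∈ Finset.range n, mass A v m := by
  rw [Fintype.sum_option, live_none, zero_add]
  have h1 : ∑ τ : LT v, live (chMap e) n (some τ) =
      ∑ τ : (Σ i : ι, Fin (v i)), live (chMap e) n (some τ) := rfl
  rw [h1, Fintype.sum_sigma]
  have h2 : ∀ i, ∑ k : Fin (v i), live (chMap e) n (some ⟨i, k⟩) = zz e n i := fun i => rfl
  simp_rw [h2, zz_eq]
  simp only [Finset.sum_apply]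
  rw [Finset.sum_comm]
  rfl

/-- Main construction. -/
theorem main [Nonempty ι] {d : ℕ} {A : Matrix ι ι ℕ} (hA : ∀ m, A ^ m ≠ 0) {v : ι → ℕ}
    (hv : ∀ i, 1 ≤ v i) (hAv : ∀ i, (A.mulVec v) i ≤ d * v i) :
    IsTSFTEntropy d (Real.log (rho A)) := by
  have he : ∀ i, Nonempty (Items A v i ↪ Fin (v i) × Fin d) := by
    intro i
    apply Function.Embedding.nonempty_of_card_le
    rw [card_Items, Fintype.card_prod, Fintype.card_fin, Fintype.card_fin, mul_comm]
    exact hAv i
  have e : ∀ i, Items A v i ↪ Fin (v i) × Fin d := fun i => Classical.choice (he i)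
  have hN : ∀ n, 1 ≤ n → (blocks (treeShift (forb (chMap e) mult)) n).ncard =
      ∑ τ : Option (LT v), 2 ^ live (chMap e) n τ := by
    intro n hn
    rw [ncard_blocks (chMap e) mult one_le_mult hn]
    exact Finset.sum_congr rfl (fun τ _ => prod_mult _ n τ)
  have hcard : 2 ≤ Fintype.card (Option (LT v)) := by
    obtain ⟨i⟩ := (inferInstance : Nonempty ι)
    have : Nonempty (LT v) := ⟨⟨i, ⟨0, hv i⟩⟩⟩
    have h1 : 0 < Fintype.card (LT v) := Fintype.card_pos
    rw [Fintype.card_option]
    omega
  set C : ℕ := Fintype.card (Option (LT v)) with hC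
  have hN2 : ∀ n, 1 ≤ n → 2 ≤ (blocks (treeShift (forb (chMap e) mult)) n).ncard := by
    intro n hn
    rw [hN n hn]
    calc 2 ≤ C := hcard
      _ = ∑ _τ : Option (LT v), 1 := by simp [hC]
      _ ≤ _ := Finset.sum_le_sum (fun τ _ => Nat.one_le_two_pow)
  refine ⟨Alph (mult : Option (LT v) → ℕ), finite_Alph _, forb (chMap e) mult,
    forb_finite _ _, ?_, ?_, ?_⟩
  · have h := hN2 1 le_rfl
    have hne : (blocks (treeShift (forb (chMap e) mult)) 1).Nonempty := by
      apply Set.nonempty_of_ncard_ne_zero
      omega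
    obtain ⟨b, t, ht, -⟩ := hne
    exact ⟨t, ht⟩
  · exact (eventually_ge_atTop 1).mono hN2
  · -- the limit
    set S : ℕ → ℝ := fun n => ∑ m ∈ Finset.range n, (mass A v m : ℝ) with hS
    have hSlim : Tendsto (fun n : ℕ => Real.log (S n) / (n : ℝ)) atTop
        (𝓝 (Real.log (rho A))) := log_mass_limit hA hv
    have hSN : ∀ n, ((∑ τ : Option (LT v), live (chMap e) n τ : ℕ) : ℝ) = S n := by
      intro n
      rw [sum_live]
      push_cast
      rfl
    have hS1 : ∀ n, 1 ≤ n → 1 ≤ S n := by
      intro n hn
      have h0 : 1 ≤ mass A v 0 := (rowMax_pos hA 0).trans (rowMax_le_mass A hv 0)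
      have h1 : (mass A v 0 : ℝ) ≤ S n :=
        Finset.single_le_sum (f := fun m => (mass A v m : ℝ)) (fun _ _ => by positivity)
          (Finset.mem_range.2 hn)
      have h2 : (1 : ℝ) ≤ mass A v 0 := by exact_mod_cast h0
      linarith
    have hC0 : (0 : ℝ) < C := by
      have : 0 < C := by omega
      exact_mod_cast this
    have hlog2 : 0 < Real.log 2 := Real.log_pos (by norm_num)
    -- lower bound
    have hlow : ∀ n, 1 ≤ n → Real.log 2 / C * S n ≤
        Real.log ((blocks (treeShift (forb (chMap e) mult)) n).ncard : ℝ) := by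
      intro n hn
      set N := (blocks (treeShift (forb (chMap e) mult)) n).ncard with hNdef
      have h1 : ∀ τ : Option (LT v), (live (chMap e) n τ : ℝ) * Real.log 2 ≤ Real.log N := by
        intro τ
        have h2 : 2 ^ live (chMap e) n τ ≤ N := by
          rw [hNdef, hN n hn]
          exact Finset.single_le_sum (f := fun τ => 2 ^ live (chMap e) n τ)
            (fun _ _ => Nat.zero_le _) (Finset.mem_univ τ)
        have h3 : ((2 : ℝ) ^ live (chMap e) n τ) ≤ N := by exact_mod_cast h2
        calc (live (chMap e) n τ : ℝ) * Real.log 2 = Real.log ((2 : ℝ) ^ live (chMap e) n τ) := by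
              rw [Real.log_pow]
          _ ≤ Real.log N := Real.log_le_log (by positivity) h3
      have h4 : S n * Real.log 2 ≤ C * Real.log N := by
        rw [← hSN n]
        push_cast
        rw [Finset.sum_mul]
        calc ∑ τ : Option (LT v), (live (chMap e) n τ : ℝ) * Real.log 2
            ≤ ∑ _τ : Option (LT v), Real.log N := Finset.sum_le_sum (fun τ _ => h1 τ)
          _ = C * Real.log N := by
              rw [Finset.sum_const, Finset.card_univ, nsmul_eq_mul]
      rw [div_mul_eq_mul_div, div_le_iff₀ hC0]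
      linarith
    have hup : ∀ n, 1 ≤ n →
        Real.log ((blocks (treeShift (forb (chMap e) mult)) n).ncard : ℝ) ≤
          (Real.log C + Real.log 2) * S n := by
      intro n hn
      have h1 : ∀ τ : Option (LT v), live (chMap e) n τ ≤
          ∑ τ : Option (LT v), live (chMap e) n τ := fun τ =>
        Finset.single_le_sum (f := fun τ => live (chMap e) n τ)
            (fun _ _ => Nat.zero_le _) (Finset.mem_univ τ)
      have h2 : (blocks (treeShift (forb (chMap e) mult)) n).ncard ≤
          C * 2 ^ (∑ τ : Option (LT v), live (chMap e) n τ) := by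
        rw [hN n hn]
        calc ∑ τ : Option (LT v), 2 ^ live (chMap e) n τ
            ≤ ∑ _τ : Option (LT v), 2 ^ (∑ τ : Option (LT v), live (chMap e) n τ) :=
              Finset.sum_le_sum (fun τ _ => Nat.pow_le_pow_right (by norm_num) (h1 τ))
          _ = _ := by rw [Finset.sum_const, Finset.card_univ, smul_eq_mul]
      have h3 : ((blocks (treeShift (forb (chMap e) mult)) n).ncard : ℝ) ≤
          C * 2 ^ (∑ τ : Option (LT v), live (chMap e) n τ) := by exact_mod_cast h2
      have h4 : (0 : ℝ) < (blocks (treeShift (forb (chMap e) mult)) n).ncard := by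
        have := hN2 n hn
        have : 0 < (blocks (treeShift (forb (chMap e) mult)) n).ncard := by omega
        exact_mod_cast this
      have h5 := Real.log_le_log h4 h3
      rw [Real.log_mul (by positivity) (by positivity), Real.log_pow, hSN] at h5
      have h6 : 0 ≤ Real.log C := Real.log_nonneg (by
        have : 1 ≤ C := by omega
        exact_mod_cast this)
      have h7 := hS1 n hn
      nlinarith
    have hc1 : 0 < Real.log 2 / C := by positivity
    have hc2 : 0 < Real.log C + Real.log 2 := by
      have h6 : 0 ≤ Real.log C := Real.log_nonneg (by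
        have : 1 ≤ C := by omega
        exact_mod_cast this)
      linarith
    have hl : Tendsto (fun n : ℕ => Real.log (Real.log 2 / C) / (n : ℝ) + Real.log (S n) / (n : ℝ))
        atTop (𝓝 (Real.log (rho A))) := by
      have := (tendsto_const_div_atTop_nhds_zero_nat (Real.log (Real.log 2 / C))).add hSlim
      simpa using this
    have hr : Tendsto (fun n : ℕ => Real.log (Real.log C + Real.log 2) / (n : ℝ) +
        Real.log (S n) / (n : ℝ)) atTop (𝓝 (Real.log (rho A))) := by
      have := (tendsto_const_div_atTop_nhds_zero_nat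
        (Real.log (Real.log C + Real.log 2))).add hSlim
      simpa using this
    refine tendsto_of_tendsto_of_tendsto_of_le_of_le' hl hr ?_ ?_
    · filter_upwards [eventually_ge_atTop 1] with n hn
      have h7 := hS1 n hn
      rw [← add_div, ← Real.log_mul hc1.ne' (by linarith)]
      apply div_le_div_of_nonneg_right _ (Nat.cast_nonneg _)
      exact Real.log_le_log (by positivity) (hlow n hn)
    · filter_upwards [eventually_ge_atTop 1] with n hn
      have h7 := hS1 n hn
      rw [← add_div, ← Real.log_mul hc2.ne' (by linarith)]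
      apply div_le_div_of_nonneg_right _ (Nat.cast_nonneg _)
      refine Real.log_le_log ?_ (hup n hn)
      have := hlow n hn
      have : 0 < Real.log 2 / C * S n := by positivity
      linarith

theorem pow_ne_zero_of_shift {A : Matrix ι ι ℕ} (hX : (matrixShift A).Nonempty) (m : ℕ) :
    A ^ m ≠ 0 := by
  obtain ⟨x, hx⟩ := hX
  have key : ∀ m : ℕ, 1 ≤ (A ^ m) (x 0) (x m) := by
    intro m
    induction m with
    | zero => simp
    | succ m ih =>
      rw [pow_succ, Matrix.mul_apply]
      calc 1 ≤ (A ^ m) (x 0) (x m) * A (x m) (x ((m + 1 : ℕ) : ℤ)) := by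
            have h1 : A (x m) (x ((m + 1 : ℕ) : ℤ)) = 1 := by
              have := hx (m : ℤ)
              push_cast
              exact this
            rw [h1, mul_one]
            exact ih
        _ ≤ _ := Finset.single_le_sum (f := fun j => (A ^ m) (x 0) j * A j (x ((m + 1 : ℕ) : ℤ)))
            (fun _ _ => Nat.zero_le _) (Finset.mem_univ _)
  intro h
  have := key m
  rw [h] at this
  simp at this

theorem rho_const (d : ℕ) :
    rho (Matrix.of (fun _ _ : Unit => d)) = d := by
  have h := gelfand (Matrix.of (fun _ _ : Unit => d))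
  have h1 : ∀ m : ℕ, ((Matrix.of (fun _ _ : Unit => d)) ^ m) = Matrix.of (fun _ _ => d ^ m) := by
    intro m
    induction m with
    | zero => ext i j; simp
    | succ m ih =>
      rw [pow_succ, ih]
      ext i j
      simp [Matrix.mul_apply, pow_succ]
  have h2 : ∀ m : ℕ, 1 ≤ m → ((rowMax (Matrix.of (fun _ _ : Unit => d)) m : ℕ) : ℝ) ^
      (1 / (m : ℝ)) = d := by
    intro m hm
    have hm0 : (m : ℝ) ≠ 0 := by
      have : (0 : ℝ) < m := by exact_mod_cast hm
      exact this.ne'
    unfold rowMax
    rw [h1]
    simp only [Matrix.of_apply, Finset.univ_unique, Finset.sum_const, Finset.card_singleton,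
      one_smul, Finset.sup_singleton]
    push_cast
    rw [← Real.rpow_natCast, ← Real.rpow_mul (by positivity), mul_one_div_cancel hm0,
      Real.rpow_one]
  refine tendsto_nhds_unique h ?_
  refine tendsto_const_nhds.congr' ?_
  filter_upwards [eventually_ge_atTop 1] with m hm
  exact (h2 m hm).symm

theorem exists_of_rho_le {A : Matrix ι ι ℕ} (hX : (matrixShift A).Nonempty) {d : ℕ}
    (hd : 2 ≤ d) (h : rho A ≤ d) : IsTSFTEntropy d (Real.log (rho A)) := by
  have : Nonempty ι := ⟨hX.some 0⟩
  rcases h.lt_or_eq with h1 | h1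
  · obtain ⟨v, hv, hAv⟩ := exists_vec A (by omega) h1
    exact main (pow_ne_zero_of_shift hX) hv hAv
  · rw [h1, ← rho_const d]
    refine main (v := fun _ => 1) (fun m => ?_) (fun _ => le_rfl) (fun i => ?_)
    · have hX' : ∀ m : ℕ, 1 ≤ ((Matrix.of (fun _ _ : Unit => d)) ^ m) () () := by
        intro m
        induction m with
        | zero => simp
        | succ m ih =>
          rw [pow_succ, Matrix.mul_apply]
          simp only [Finset.univ_unique, Finset.sum_singleton, Matrix.of_apply]
          have := ih
          nlinarith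
      intro h
      have := hX' m
      rw [h] at this
      simp at this
    · simp [Matrix.mulVec, dotProduct]

end Q78.TreeShift
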